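import Mathlib

/-!
# If the Scott space of the closed sets of `X` is core-compact, so is `X`
-/

set_option autoImplicit false

namespace Pool.Agent.Results.MP_1b9d6e_gt.CoreCompact

open Set TopologicalSpace Topology

universe u

/-- `V` is way below `U` in the topology `t`: every family of open sets whose union contains `U`
has a finite subfamily whose union contains `V`. -/
def WayBelow {Y : Type u} (t : TopologicalSpace Y) (V U : Set Y) : Prop :=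
  ∀ 𝒲 : Set (Set Y), (∀ W ∈ 𝒲, IsOpen[t] W) → U ⊆ ⋃₀ 𝒲 → ∃ 𝒯 ⊆ 𝒲, 𝒯.Finite ∧ V ⊆ ⋃₀ 𝒯

/-- The topology `t` is core-compact. -/
def CoreCompact {Y : Type u} (t : TopologicalSpace Y) : Prop :=
  ∀ U : Set Y, IsOpen[t] U → ∀ y ∈ U, ∃ V : Set Y, IsOpen[t] V ∧ y ∈ V ∧ WayBelow t V U

variable {X : Type u} [TopologicalSpace X]

/-- Scott open sets of closed sets. -/
def SO (𝒰 : Set (Closeds X)) : Prop :=
  IsUpperSet 𝒰 ∧ ∀ D : Set (Closeds X), D.Nonempty → DirectedOn (· ≤ ·) D → sSup D ∈ 𝒰 →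
    ∃ d ∈ D, d ∈ 𝒰

/-- Scott closed sets of closed sets. -/
def SC (𝒩 : Set (Closeds X)) : Prop :=
  IsLowerSet 𝒩 ∧ ∀ D : Set (Closeds X), D.Nonempty → DirectedOn (· ≤ ·) D → D ⊆ 𝒩 → sSup D ∈ 𝒩

theorem isOpen_iff {𝒰 : Set (Closeds X)} :
    IsOpen[Topology.scott (Closeds X) univ] 𝒰 ↔ SO 𝒰 := by
  let _ : TopologicalSpace (Closeds X) := Topology.scott (Closeds X) univ
  have _ : Topology.IsScott (Closeds X) univ := ⟨rfl⟩
  have h := Topology.IsScott.isOpen_iff_isUpperSet_and_dirSupInaccOn (α := Closeds X)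
    (D := univ) (s := 𝒰)
  refine Iff.trans h ?_
  rw [dirSupInaccOn_univ]
  constructor
  · rintro ⟨h1, h2⟩
    refine ⟨h1, fun D hD hdir hs => ?_⟩
    obtain ⟨d, hd, hd'⟩ := h2 hD hdir (isLUB_sSup D) hs
    exact ⟨d, hd, hd'⟩
  · rintro ⟨h1, h2⟩
    refine ⟨h1, fun D hD hdir a ha hs => ?_⟩
    rw [← ha.sSup_eq] at hs
    obtain ⟨d, hd, hd'⟩ := h2 D hD hdir hs
    exact ⟨d, hd, hd'⟩

theorem SO.compl {𝒰 : Set (Closeds X)} (h : SO 𝒰) : SC 𝒰ᶜ := by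
  refine ⟨h.1.compl, fun D hD hdir hsub hs => ?_⟩
  obtain ⟨d, hd, hd'⟩ := h.2 D hD hdir hs
  exact hsub hd hd'

theorem SC.compl {𝒩 : Set (Closeds X)} (h : SC 𝒩) : SO 𝒩ᶜ := by
  refine ⟨h.1.compl, fun D hD hdir hs => ?_⟩
  by_contra hcon
  push Not at hcon
  exact hs (h.2 D hD hdir fun d hd => by simpa using hcon d hd)

theorem SO.union {𝒰 𝒱 : Set (Closeds X)} (h : SO 𝒰) (h' : SO 𝒱) : SO (𝒰 ∪ 𝒱) := by
  refine ⟨h.1.union h'.1, fun D hD hdir hs => ?_⟩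
  rcases hs with hs | hs
  · obtain ⟨d, hd, hd'⟩ := h.2 D hD hdir hs
    exact ⟨d, hd, Or.inl hd'⟩
  · obtain ⟨d, hd, hd'⟩ := h'.2 D hD hdir hs
    exact ⟨d, hd, Or.inr hd'⟩

theorem SO.sUnion {𝒮 : Set (Set (Closeds X))} (h : ∀ 𝒰 ∈ 𝒮, SO 𝒰) : SO (⋃₀ 𝒮) := by
  refine ⟨isUpperSet_sUnion fun 𝒰 h𝒰 => (h 𝒰 h𝒰).1, fun D hD hdir hs => ?_⟩
  obtain ⟨𝒰, h𝒰, hs⟩ := hs
  obtain ⟨d, hd, hd'⟩ := (h 𝒰 h𝒰).2 D hD hdir hs
  exact ⟨d, hd, 𝒰, h𝒰, hd'⟩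

theorem subset_sSup {D : Set (Closeds X)} {d : Closeds X} (hd : d ∈ D) :
    (d : Set X) ⊆ (sSup D : Closeds X) := le_sSup hd

theorem meets_sSup {D : Set (Closeds X)} {U : Set X} (hU : IsOpen U)
    (h : (((sSup D : Closeds X) : Set X) ∩ U).Nonempty) : ∃ d ∈ D, ((d : Set X) ∩ U).Nonempty := by
  rw [Closeds.coe_sSup, closure_inter_open_nonempty_iff hU] at h
  obtain ⟨x, ⟨c, ⟨d, hd, rfl⟩, hx⟩, hxU⟩ := h
  exact ⟨d, hd, x, hx, hxU⟩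

/-- The closed sets meeting `U`. -/
def dia (U : Set X) : Set (Closeds X) := {C | ((C : Set X) ∩ U).Nonempty}

theorem so_dia {U : Set X} (hU : IsOpen U) : SO (dia U) := by
  refine ⟨fun A B hAB hA => hA.mono (inter_subset_inter_left _ hAB), fun D _ _ hs => ?_⟩
  obtain ⟨d, hd, h⟩ := meets_sSup hU hs
  exact ⟨d, hd, h⟩

/-- Closure of a point. -/
def pt (x : X) : Closeds X := ⟨closure {x}, isClosed_closure⟩

theorem pt_le {x : X} {C : Closeds X} : pt x ≤ C ↔ x ∈ C := by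
  constructor
  · intro h
    exact h (subset_closure rfl)
  · intro h
    have : closure {x} ⊆ (C : Set X) := C.isClosed.closure_subset_iff.2 (singleton_subset_iff.2 h)
    exact this

theorem mem_pt (x : X) : x ∈ pt x := pt_le.1 le_rfl

/-- Unions of two members. -/
def sq (𝒩 : Set (Closeds X)) : Set (Closeds X) := {C | ∃ A ∈ 𝒩, ∃ B ∈ 𝒩, C ≤ A ⊔ B}

theorem pt_sq {𝒩 : Set (Closeds X)} (h : IsLowerSet 𝒩) {x : X} (hx : pt x ∈ sq 𝒩) : pt x ∈ 𝒩 := by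
  obtain ⟨A, hA, B, hB, hAB⟩ := hx
  rcases (hAB (mem_pt x) : x ∈ (A : Set X) ∪ B) with h1 | h1
  · exact h (pt_le.2 h1) hA
  · exact h (pt_le.2 h1) hB

theorem limit_mem {ι : Type u} (𝒢 : Ultrafilter ι) {𝒩 : Set (Closeds X)} (h : SC 𝒩)
    {a : ι → Closeds X} (ha : ∀ i, a i ∈ 𝒩) : sSup {c | ∀ᶠ i in 𝒢, c ≤ a i} ∈ 𝒩 := by
  refine h.2 _ ⟨⊥, Filter.Eventually.of_forall fun i => bot_le⟩ ?_ ?_
  · intro c hc c' hc'
    refine ⟨c ⊔ c', ?_, le_sup_left, le_sup_right⟩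
    filter_upwards [hc, hc'] with i h1 h2
    exact sup_le h1 h2
  · intro c hc
    obtain ⟨i, hi⟩ := (hc : ∀ᶠ i in (𝒢 : Filter ι), c ≤ a i).exists
    exact h.1 hi (ha i)

theorem sc_sq {𝒩 : Set (Closeds X)} (h : SC 𝒩) : SC (sq 𝒩) := by
  refine ⟨?_, ?_⟩
  · rintro C C' hle ⟨A, hA, B, hB, hAB⟩
    exact ⟨A, hA, B, hB, hle.trans hAB⟩
  · intro D hD hdir hsub
    have hsub' : ∀ d : D, ∃ A ∈ 𝒩, ∃ B ∈ 𝒩, (d : Closeds X) ≤ A ⊔ B := fun d => hsub d.2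
    choose A hA B hB hAB using hsub'
    have _ : Nonempty D := hD.to_subtype
    have _ : IsDirectedOrder D := ⟨fun a b => by
      obtain ⟨c, hc, h1, h2⟩ := hdir a a.2 b b.2
      exact ⟨⟨c, hc⟩, h1, h2⟩⟩
    let 𝒢 : Ultrafilter D := Ultrafilter.of Filter.atTop
    have h𝒢 : (𝒢 : Filter D) ≤ Filter.atTop := Ultrafilter.of_le _
    refine ⟨_, limit_mem 𝒢 h hA, _, limit_mem 𝒢 h hB, sSup_le fun d hd => ?_⟩
    intro x hx
    have h1 : ∀ᶠ e : D in (𝒢 : Filter D), x ∈ A e ∨ x ∈ B e := by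
      have h2 : ∀ᶠ e : D in Filter.atTop, (⟨d, hd⟩ : D) ≤ e := Filter.eventually_ge_atTop _
      filter_upwards [h𝒢 h2] with e he
      exact (hAB e (he hx) : x ∈ (A e : Set X) ∪ B e)
    rw [Ultrafilter.eventually_or] at h1
    rcases h1 with h1 | h1
    · left
      have h2 : pt x ≤ sSup {c | ∀ᶠ i in (𝒢 : Filter D), c ≤ A i} := by
        refine le_sSup ?_
        filter_upwards [h1] with e he
        exact pt_le.2 he
      exact pt_le.1 h2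
    · right
      have h2 : pt x ≤ sSup {c | ∀ᶠ i in (𝒢 : Filter D), c ≤ B i} := by
        refine le_sSup ?_
        filter_upwards [h1] with e he
        exact pt_le.2 he
      exact pt_le.1 h2

/-- Way below among Scott open families. -/
def WB (𝒱 𝒰 : Set (Closeds X)) : Prop :=
  ∀ 𝒲 : Set (Set (Closeds X)), (∀ W ∈ 𝒲, SO W) → 𝒰 ⊆ ⋃₀ 𝒲 → ∃ 𝒯 ⊆ 𝒲, 𝒯.Finite ∧ 𝒱 ⊆ ⋃₀ 𝒯

theorem WB.subset {𝒱 𝒰 : Set (Closeds X)} (h : WB 𝒱 𝒰) (h𝒰 : SO 𝒰) : 𝒱 ⊆ 𝒰 := by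
  obtain ⟨𝒯, h1, -, h3⟩ := h {𝒰} (by simpa using h𝒰) (by simp)
  refine h3.trans (sUnion_subset fun T hT => ?_)
  have := h1 hT
  rw [mem_singleton_iff] at this
  exact this.le

theorem WB.union {𝒱 𝒱' 𝒰 : Set (Closeds X)} (h : WB 𝒱 𝒰) (h' : WB 𝒱' 𝒰) : WB (𝒱 ∪ 𝒱') 𝒰 := by
  intro 𝒲 h1 h2
  obtain ⟨𝒯, h3, h4, h5⟩ := h 𝒲 h1 h2
  obtain ⟨𝒯', h3', h4', h5'⟩ := h' 𝒲 h1 h2
  refine ⟨𝒯 ∪ 𝒯', union_subset h3 h3', h4.union h4', union_subset ?_ ?_⟩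
  · exact h5.trans (sUnion_subset_sUnion subset_union_left)
  · exact h5'.trans (sUnion_subset_sUnion subset_union_right)

theorem WB.empty {𝒰 : Set (Closeds X)} : WB ∅ 𝒰 :=
  fun _ _ _ => ⟨∅, empty_subset _, finite_empty, empty_subset _⟩

theorem WB.sUnion {𝒮 : Set (Set (Closeds X))} {𝒰 : Set (Closeds X)} (hf : 𝒮.Finite)
    (h : ∀ 𝒱 ∈ 𝒮, WB 𝒱 𝒰) : WB (⋃₀ 𝒮) 𝒰 := by
  induction 𝒮, hf using Set.Finite.induction_on with
  | empty => simpa using WB.empty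
  | insert _ _ ih =>
    rw [sUnion_insert]
    exact (h _ (mem_insert _ _)).union (ih fun 𝒱 h𝒱 => h 𝒱 (mem_insert_of_mem _ h𝒱))

/-- Core-compactness in terms of Scott open families. -/
def CC (X : Type u) [TopologicalSpace X] : Prop :=
  ∀ 𝒰 : Set (Closeds X), SO 𝒰 → ∀ C ∈ 𝒰, ∃ 𝒱, SO 𝒱 ∧ C ∈ 𝒱 ∧ WB 𝒱 𝒰

theorem finite_range {ι β : Type u} {f : ι → β} {𝒯 : Set β} (h : 𝒯 ⊆ range f) (hf : 𝒯.Finite) :
    ∃ T : Set ι, T.Finite ∧ 𝒯 = f '' T := by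
  obtain ⟨T, hT, hinj⟩ := Set.exists_image_eq_injOn_of_subset_range h
  exact ⟨T, Set.Finite.of_finite_image (hT ▸ hf) hinj, hT.symm⟩

/-- Squaring step. -/
theorem step (hX : CC X) {W : Set X} (hW : IsOpen W) {𝒱 : Set (Closeds X)} (h𝒱 : SO 𝒱)
    (hWB : WB 𝒱 (dia W)) : ∃ 𝒱', SO 𝒱' ∧ 𝒱 ⊆ 𝒱' ∧ WB 𝒱' (dia W) ∧
      ∀ A B : Closeds X, A ∉ 𝒱' → B ∉ 𝒱' → A ⊔ B ∉ 𝒱 := by
  have h1 : ∀ w : W, ∃ 𝒱w, SO 𝒱w ∧ pt (w : X) ∈ 𝒱w ∧ WB 𝒱w (dia W) := fun w =>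
    hX (dia W) (so_dia hW) (pt (w : X)) ⟨w, mem_pt _, w.2⟩
  choose F hF hwF hFW using h1
  have hso : ∀ w : W, SO (sq (F w)ᶜ)ᶜ := fun w => (sc_sq (hF w).compl).compl
  obtain ⟨𝒯, h𝒯, hfin, hcov⟩ := hWB (range fun w : W => (sq (F w)ᶜ)ᶜ)
    (by rintro _ ⟨w, rfl⟩; exact hso w) (by
      rintro C ⟨w, hwC, hwW⟩
      refine ⟨_, ⟨⟨w, hwW⟩, rfl⟩, ?_⟩
      refine (hso ⟨w, hwW⟩).1 (pt_le.2 hwC) ?_
      intro hcon
      exact pt_sq (hF ⟨w, hwW⟩).compl.1 hcon (hwF ⟨w, hwW⟩))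
  obtain ⟨T, hT, hTe⟩ := finite_range h𝒯 hfin
  refine ⟨𝒱 ∪ ⋃₀ (F '' T), h𝒱.union (SO.sUnion ?_), subset_union_left, hWB.union (WB.sUnion
    (hT.image _) ?_), ?_⟩
  · rintro _ ⟨w, -, rfl⟩
    exact hF w
  · rintro _ ⟨w, -, rfl⟩
    exact hFW w
  · intro A B hA hB hAB
    obtain ⟨_, hmem, h2⟩ := hcov hAB
    rw [hTe] at hmem
    obtain ⟨w, hw, rfl⟩ := hmem
    refine h2 ⟨A, ?_, B, ?_, le_rfl⟩
    · intro h3
      exact hA (Or.inr ⟨_, ⟨w, hw, rfl⟩, h3⟩)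
    · intro h3
      exact hB (Or.inr ⟨_, ⟨w, hw, rfl⟩, h3⟩)

theorem mem_sup {F : Finset X} {u : X} (h : u ∈ F.sup pt) : ∃ y ∈ F, u ∈ pt y := by
  classical
  induction F using Finset.induction_on with
  | empty => exact absurd h (fun h' : u ∈ (∅ : Set X) => h')
  | insert a F _ ih =>
    rw [Finset.sup_insert] at h
    rcases (h : u ∈ (pt a : Set X) ∪ (F.sup pt : Closeds X)) with h | h
    · exact ⟨a, Finset.mem_insert_self _ _, h⟩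
    · obtain ⟨y, hy, hu⟩ := ih h
      exact ⟨y, Finset.mem_insert_of_mem hy, hu⟩

theorem dir_fin {D : Set (Closeds X)} (hdir : DirectedOn (· ≤ ·) D) {d₀ : Closeds X} (hd₀ : d₀ ∈ D)
    {f : ℕ → Closeds X} (Z : Finset ℕ) (hf : ∀ m ∈ Z, f m ∈ D) :
    ∃ e ∈ D, d₀ ≤ e ∧ ∀ m ∈ Z, f m ≤ e := by
  induction Z using Finset.induction_on with
  | empty => exact ⟨d₀, hd₀, le_rfl, by simp⟩
  | insert a Z _ ih =>
    obtain ⟨e, he, h1, h2⟩ := ih fun m hm => hf m (Finset.mem_insert_of_mem hm)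
    obtain ⟨e', he', h3, h4⟩ := hdir e he (f a) (hf a (Finset.mem_insert_self _ _))
    refine ⟨e', he', h1.trans h3, fun m hm => ?_⟩
    rcases Finset.mem_insert.1 hm with rfl | hm
    · exact h4
    · exact (h2 m hm).trans h3

/-- The key property of way below: no sequence of members of `𝒱` is point-finite on `U`. -/
theorem not_pointFinite {U : Set X} (hU : IsOpen U) {𝒱 : Set (Closeds X)} (h : WB 𝒱 (dia U))
    {H : ℕ → Closeds X} (hH : ∀ n, H n ∈ 𝒱) : ∃ u ∈ U, ∀ n, ∃ m, n ≤ m ∧ u ∈ H m := by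
  by_contra hcon
  push Not at hcon
  have hso : ∀ n : ℕ, SO {C : Closeds X | C ∈ dia U ∧ ∀ m, n ≤ m → ¬ C ≤ H m} := by
    intro n
    refine ⟨fun A B hAB hA => ⟨(so_dia hU).1 hAB hA.1, fun m hm hB => hA.2 m hm (hAB.trans hB)⟩, ?_⟩
    intro D hD hdir hs
    obtain ⟨d₀, hd₀, u, hu, huU⟩ := (so_dia hU).2 D hD hdir hs.1
    by_contra hno
    push Not at hno
    obtain ⟨k, hk⟩ := hcon u huU
    have h1 : ∃ m, n ≤ m ∧ ∀ d ∈ D, d ≤ H m := by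
      by_contra h2
      push Not at h2
      have h2' : ∀ m, ∃ d ∈ D, n ≤ m → ¬ d ≤ H m := by
        intro m
        by_cases hm : n ≤ m
        · obtain ⟨d, hd, h⟩ := h2 m hm
          exact ⟨d, hd, fun _ => h⟩
        · exact ⟨d₀, hd₀, fun h => absurd h hm⟩
      choose f hf hf' using h2'
      obtain ⟨e, he, h3, h4⟩ := dir_fin hdir hd₀ (Finset.range k) (f := f) fun m _ => hf m
      have h5 : e ∈ dia U := (so_dia hU).1 h3 ⟨u, hu, huU⟩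
      have h6 := hno e he
      have h7 : ∃ m, n ≤ m ∧ e ≤ H m := by
        by_contra h8
        push Not at h8
        exact h6 ⟨h5, h8⟩
      obtain ⟨m, hm, hem⟩ := h7
      have hmk : m < k := by
        by_contra hmk
        exact hk m (not_lt.1 hmk) (hem (h3 hu))
      exact hf' m hm ((h4 m (Finset.mem_range.2 hmk)).trans hem)
    obtain ⟨m, hm, hall⟩ := h1
    exact hs.2 m hm (sSup_le hall)
  obtain ⟨𝒯, h𝒯, hfin, hcov⟩ := h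
    (range fun n : ULift.{u} ℕ => {C : Closeds X | C ∈ dia U ∧ ∀ m, n.down ≤ m → ¬ C ≤ H m})
    (by rintro _ ⟨n, rfl⟩; exact hso n.down) (by
      rintro C ⟨u, huC, huU⟩
      obtain ⟨k, hk⟩ := hcon u huU
      exact ⟨_, ⟨⟨k⟩, rfl⟩, ⟨u, huC, huU⟩, fun m hm hle => hk m hm (hle huC)⟩)
  obtain ⟨T, hT, rfl⟩ := finite_range h𝒯 hfin
  obtain ⟨N, hN⟩ := (hT.image ULift.down).bddAbove
  obtain ⟨_, ⟨n, hn, rfl⟩, h1⟩ := hcov (hH N)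
  exact h1.2 N (hN ⟨n, hn, rfl⟩) le_rfl

theorem main (hX : CC X) {W : Set X} (hW : IsOpen W) {x : X} (hx : x ∈ W) :
    ∃ 𝒱, SO 𝒱 ∧ WB 𝒱 (dia W) ∧ x ∈ interior {y | pt y ∈ 𝒱} := by
  obtain ⟨𝒱₀, h₀, hx₀, hW₀⟩ := hX (dia W) (so_dia hW) (pt x) ⟨x, mem_pt x, hx⟩
  let A := {𝒱 : Set (Closeds X) // SO 𝒱 ∧ WB 𝒱 (dia W)}
  have hstep : ∀ 𝒱 : A, ∃ 𝒱' : A, 𝒱.1 ⊆ 𝒱'.1 ∧
      ∀ B C : Closeds X, B ∉ 𝒱'.1 → C ∉ 𝒱'.1 → B ⊔ C ∉ 𝒱.1 := by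
    rintro ⟨𝒱, h1, h2⟩
    obtain ⟨𝒱', h3, h4, h5, h6⟩ := step hX hW h1 h2
    exact ⟨⟨𝒱', h3, h5⟩, h4, h6⟩
  choose g hg1 hg2 using hstep
  let s : ℕ → A := fun n => Nat.rec ⟨𝒱₀, h₀, hW₀⟩ (fun _ a => g a) n
  have hs0 : (s 0).1 = 𝒱₀ := rfl
  have hs1 : ∀ n, (s n).1 ⊆ (s (n + 1)).1 := fun n => hg1 (s n)
  have hs2 : ∀ n (B C : Closeds X), B ∉ (s (n + 1)).1 → C ∉ (s (n + 1)).1 → B ⊔ C ∉ (s n).1 :=
    fun n => hg2 (s n)
  have hmono : Monotone fun n => (s n).1 := monotone_nat_of_le_succ hs1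
  let N : Set (Closeds X) := {C | ∀ n, C ∉ (s n).1}
  have hNlow : IsLowerSet N := fun B C hCB hB n hC => hB n ((s n).2.1.1 hCB hC)
  have hNsup : ∀ B ∈ N, ∀ C ∈ N, B ⊔ C ∈ N := fun B hB C hC n =>
    hs2 n B C (hB (n + 1)) (hC (n + 1))
  have hNne : N.Nonempty := by
    refine ⟨⊥, fun n hn => ?_⟩
    obtain ⟨y, hy, -⟩ := (s n).2.2.subset (so_dia hW) hn
    exact hy
  have hNdir : DirectedOn (· ≤ ·) N := fun B hB C hC => ⟨B ⊔ C, hNsup B hB C hC, le_sup_left,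
    le_sup_right⟩
  have hM : sSup N ∈ N := fun n hn =>
    (((s n).2.1.compl).2 N hNne hNdir fun C hC => hC n) hn
  set M : Closeds X := sSup N with hMdef
  let U : Set X := (M : Set X)ᶜ
  have hU : IsOpen U := M.isClosed.isOpen_compl
  have hxU : x ∈ U := fun hxM => hM 0 ((s 0).2.1.1 (pt_le.2 hxM) hx₀)
  obtain ⟨𝒱', h1', hx', hU'⟩ := hX (dia U) (so_dia hU) (pt x) ⟨x, mem_pt x, hxU⟩
  by_contra hcon
  push Not at hcon
  have hint : ∀ n, x ∈ closure {y | pt y ∈ (s n).1}ᶜ := by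
    intro n
    rw [closure_compl]
    exact hcon _ (s n).2.1 (s n).2.2
  have hF : ∀ n, ∃ F : Finset X, (∀ y ∈ F, pt y ∉ (s n).1) ∧ F.sup pt ∈ 𝒱' := by
    intro n
    classical
    have hdir : DirectedOn (· ≤ ·)
        {C : Closeds X | ∃ F : Finset X, (∀ y ∈ F, pt y ∉ (s n).1) ∧ C = F.sup pt} := by
      rintro _ ⟨F, hF, rfl⟩ _ ⟨F', hF', rfl⟩
      refine ⟨(F ∪ F').sup pt, ⟨F ∪ F', fun y hy => ?_, rfl⟩,
        Finset.sup_mono Finset.subset_union_left, Finset.sup_mono Finset.subset_union_right⟩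
      rcases Finset.mem_union.1 hy with hy | hy
      · exact hF y hy
      · exact hF' y hy
    obtain ⟨_, ⟨F, hF, rfl⟩, hF'⟩ := h1'.2
      {C : Closeds X | ∃ F : Finset X, (∀ y ∈ F, pt y ∉ (s n).1) ∧ C = F.sup pt}
      ⟨⊥, ∅, by simp, by simp⟩ hdir (by
        refine h1'.1 (pt_le.2 ?_) hx'
        refine (Closeds.isClosed _).closure_subset_iff.2 ?_ (hint n)
        intro y hy
        have h1 : pt y ≤ sSup {C : Closeds X | ∃ F : Finset X, (∀ y ∈ F, pt y ∉ (s n).1) ∧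
            C = F.sup pt} := le_sSup ⟨{y}, by simpa using hy, by simp⟩
        exact pt_le.1 h1)
    exact ⟨F, hF, hF'⟩
  choose F hF hF' using hF
  obtain ⟨u, huU, hu⟩ := not_pointFinite hU hU' hF'
  apply huU
  have h1 : pt u ∈ N := by
    intro n hn
    obtain ⟨m, hm, hum⟩ := hu n
    obtain ⟨y, hy, huy⟩ := mem_sup hum
    exact hF m y hy ((s m).2.1.1 (pt_le.2 huy) (hmono hm hn))
  exact pt_le.1 (le_sSup h1)

theorem cc_of (h : CoreCompact (Topology.scott (Closeds X) univ)) : CC X := by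
  intro 𝒰 h𝒰 C hC
  obtain ⟨𝒱, h1, h2, h3⟩ := h 𝒰 (isOpen_iff.2 h𝒰) C hC
  exact ⟨𝒱, isOpen_iff.1 h1, h2, fun 𝒲 h𝒲 hcov => h3 𝒲 (fun W hW => isOpen_iff.2 (h𝒲 W hW)) hcov⟩

/-- Let `X` be a topological space. If the set of closed subsets of `X`, ordered by inclusion and
with its Scott topology, is core-compact, then `X` is core-compact. -/
theorem result (X : Type u) [t : TopologicalSpace X]
    (h : CoreCompact (Topology.scott (Closeds X) univ)) : CoreCompact t := by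
  intro W hW x hx
  obtain ⟨𝒱, h1, h2, h3⟩ := main (cc_of h) hW hx
  refine ⟨interior {y | pt y ∈ 𝒱}, isOpen_interior, h3, fun 𝒲 h𝒲 hcov => ?_⟩
  obtain ⟨𝒯, h𝒯, hfin, hcov'⟩ := h2 (range fun O : 𝒲 => dia (O : Set X))
    (by rintro _ ⟨O, rfl⟩; exact so_dia (h𝒲 O O.2)) (by
      rintro C ⟨y, hyC, hyW⟩
      obtain ⟨O, hO, hyO⟩ := hcov hyW
      exact ⟨_, ⟨⟨O, hO⟩, rfl⟩, y, hyC, hyO⟩)
  obtain ⟨T, hT, rfl⟩ := finite_range h𝒯 hfin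
  refine ⟨Subtype.val '' T, by rintro _ ⟨O, -, rfl⟩; exact O.2, hT.image _, fun y hy => ?_⟩
  have hy' : y ∈ {y | pt y ∈ 𝒱} := interior_subset hy
  obtain ⟨_, ⟨O, hO, rfl⟩, z, hz, hzO⟩ := hcov' hy'
  refine ⟨O, ⟨O, hO, rfl⟩, ?_⟩
  have h4 : (closure {y} ∩ (O : Set X)).Nonempty := ⟨z, hz, hzO⟩
  rw [closure_inter_open_nonempty_iff (h𝒲 O O.2)] at h4
  obtain ⟨y', hy', hO'⟩ := h4
  rw [mem_singleton_iff] at hy'
  exact hy' ▸ hO'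

end Pool.Agent.Results.MP_1b9d6e_gt.CoreCompact
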